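import Pool.Agent.Q333.GPO.TaskBigDel
import Pool.Agent.Q333.GPO.TaskBigIns
import Pool.Agent.Q333.GPO.TaskDelL
import Pool.Agent.Q333.GPO.TaskDrift
import Pool.Agent.Q333.GPO.TaskEBind
import Pool.Agent.Q333.GPO.TaskFitDel
import Pool.Agent.Q333.GPO.TaskFitIns
import Pool.Agent.Q333.GPO.TaskG
import Pool.Agent.Q333.GPO.TaskGDel
import Pool.Agent.Q333.GPO.TaskGIns
import Pool.Agent.Q333.GPO.TaskGSub
import Pool.Agent.Q333.GPO.TaskGood
import Pool.Agent.Q333.GPO.TaskGoodSub
import Pool.Agent.Q333.GPO.TaskGrow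
import Pool.Agent.Q333.GPO.TaskHvl
import Pool.Agent.Q333.GPO.TaskHvl0
import Pool.Agent.Q333.GPO.TaskInsL
import Pool.Agent.Q333.GPO.TaskLen
import Pool.Agent.Q333.GPO.TaskLow
import Pool.Agent.Q333.GPO.TaskLyap
import Pool.Agent.Q333.GPO.TaskM
import Pool.Agent.Q333.GPO.TaskMDel
import Pool.Agent.Q333.GPO.TaskMIns
import Pool.Agent.Q333.GPO.TaskMSet
import Pool.Agent.Q333.GPO.TaskMain
import Pool.Agent.Q333.GPO.TaskP
import Pool.Agent.Q333.GPO.TaskPhi
import Pool.Agent.Q333.GPO.TaskPhiB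
import Pool.Agent.Q333.GPO.TaskR1
import Pool.Agent.Q333.GPO.TaskR2
import Pool.Agent.Q333.GPO.TaskRk
import Pool.Agent.Q333.GPO.TaskSeries
import Pool.Agent.Q333.GPO.TaskSize
import Pool.Agent.Q333.GPO.TaskSmall
import Pool.Agent.Q333.GPO.TaskStep
import Pool.Agent.Q333.GPO.TaskSubL
import Pool.Agent.Q333.GPO.TaskSumG
import Pool.Agent.Q333.GPO.TaskTwo
import Pool.Agent.Q333.GPO.TaskU
import Pool.Agent.Q333.GPO.TaskUnif
import Pool.Agent.Q333.GPO.TaskUnion

/-!
The expected optimization time of the strictly elitist (1+1) GP on ORDER is `O(n^2 + n T_init)`.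
-/

set_option autoImplicit false

open scoped ENNReal

namespace Pool.Agent.Results.MP_3edecc_lc.StrictlyElitistOrder

open Pool.Agent.Q333.GPO

/-- There is an absolute constant `C` such that for every `n ≥ 1` and every initial tree the
expected optimization time of the (1+1) GP* on ORDER is at most `C (n ^ 2 + n T_init)`. -/
theorem result : ∃ C : ℕ, ∀ (n : ℕ) [NeZero n] (X : Tree n),
    expTime X ≤ C * ((n : ℝ≥0∞) ^ 2 + n * size X) := by
  have hM := taskM
  have hU := taskU hM
  have hEB := taskEBind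
  have hHvl := taskHvl taskUnif hEB
  have hHvl0 := taskHvl0
  have hLen := taskLen
  have hG := taskG
  have hFI := taskFitIns taskInsL hM
  have hFD := taskFitDel taskDelL hM
  have hBI := taskBigIns hHvl hEB hLen taskGood hFI
  have hBD := taskBigDel hHvl hEB hLen hFD
  have hSm := taskSmall hHvl hHvl0 hEB hLen hG taskGood hFI hM
  have hR1 := taskR1 hHvl hHvl0 hLen taskSize hG taskGIns taskGDel taskGSub
  have hR2 := taskR2 hHvl hLen taskSize taskInsL taskDelL taskSubL taskMIns taskMDel taskMSet hM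
    taskGood (taskGoodSub hM) hG
  have hRk := taskRk hR1 hR2 hEB
  have hP := taskP (taskUnion hRk hM) hSm hBI hBD (taskTwo hG) hM
  have hL := taskLow (taskSumG hG hU hM) hBI hSm hU
  have hD := taskDrift hP hL (taskGrow hLen taskSize) taskPhi taskPhiB taskSeries
    (taskStep hEB) hU
  exact taskMain taskLyap hD taskPhiB hU

end Pool.Agent.Results.MP_3edecc_lc.StrictlyElitistOrder
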